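import Pool.Agent.Helper27.CB.Main

/-!
# Condition (b) implies property (D)

Let `Q = (X - x_1)...(X - x_n)` have simple real zeros in `[-1,1]` that are symmetric about the
origin.  If `|Q|` does not decrease along the sequence `0, t_1, ..., t_m, 1` (where `t_1, ..., t_m`
are the zeros of `Q'` in `(0,1)`), then `|Q(x+iy)| ≤ |Q(1+iy)|` for all `x` in `[-1,1]` and real `y`.
This answers question Q2 in the affirmative (also for the strict reading of increasing, which is
a stronger hypothesis).

Sketch.  In the squared variable `w = z^2` write `Q = z^e ∏ (w - b_j)` and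
`S_i = 2e + 1 + 4 ∑_{j ≠ i} b_i / (b_i - b_j)`.  Then `Q'' = ∑ 2 S_i z^e ∏_{j ≠ i} (w - b_j)`,
which gives the domination when all `S_i` are nonnegative.  The main point is that nondecreasing
heights of the arches of `Q^2` force `S_i > 0`: among all such configurations with `S_i ≤ 0`, take
one for which the quotient of the first and the last height is maximal.  If this quotient is less
than one, an explicit perturbation of the zeros increases it; if it equals one, all heights are
equal (the Chebyshev case) and `S_i > 0` follows from the polynomial identity of that case.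
-/

set_option autoImplicit false

open Polynomial

namespace Pool.Agent.Results.MP_1c7d4c_an.ConditionB

/-- The monic polynomial with the zeros `x j`. -/
noncomputable def zeroPoly {n : ℕ} (x : Fin n → ℝ) : ℝ[X] := ∏ j, (X - C (x j))

/-- The zeros are simple, lie in `[-1,1]` and are symmetric about the origin. -/
def SymmetricZeros {n : ℕ} (x : Fin n → ℝ) : Prop :=
  StrictMono x ∧ (∀ j, x j ∈ Set.Icc (-1 : ℝ) 1) ∧ ∀ j, x j = -x (Fin.rev j)

/-- The points `0`, `t_1 < ... < t_m` (the zeros of the derivative in `(0,1)`) and `1`. -/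
def comparisonPoints (Q : ℝ[X]) : Set ℝ :=
  {0} ∪ {t | t ∈ Set.Ioo (0 : ℝ) 1 ∧ Q.derivative.eval t = 0} ∪ {1}

/-- Condition (b), in the weak sense: `|Q|` does not decrease along the comparison points. -/
def MonotoneHeights (Q : ℝ[X]) : Prop :=
  ∀ s ∈ comparisonPoints Q, ∀ t ∈ comparisonPoints Q, s < t → |Q.eval s| ≤ |Q.eval t|

/-- Property (D). -/
def PropertyD (Q : ℝ[X]) : Prop :=
  ∀ x ∈ Set.Icc (-1 : ℝ) 1, ∀ y : ℝ,
    ‖aeval ((x : ℂ) + y * Complex.I) Q‖ ≤ ‖aeval (1 + y * Complex.I) Q‖

/-- Every symmetric real-rooted `Q` that satisfies condition (b) has property (D). -/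
theorem result {n : ℕ} (x : Fin n → ℝ) (hx : SymmetricZeros x)
    (hb : MonotoneHeights (zeroPoly x)) : PropertyD (zeroPoly x) := by
  obtain ⟨h1, h2, h3⟩ := hx
  obtain ⟨p, hp⟩ := Nat.even_or_odd' n
  rcases p with _ | p
  · rcases hp with hp | hp
    · have h0 : n = 0 := by omega
      subst h0
      intro s _ y
      simp [zeroPoly]
    · have h0 : n = 1 := by omega
      subst h0
      have h4 : x 0 = 0 := by
        have h5 := h3 0
        have h6 : Fin.rev (0 : Fin 1) = 0 := Subsingleton.elim _ _
        rw [h6] at h5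
        linarith
      intro s hs y
      have h5 : zeroPoly x = X := by
        unfold zeroPoly
        rw [Fin.prod_univ_one, h4, C_0, sub_zero]
      rw [h5, aeval_X, aeval_X]
      have e1 : ∀ t : ℝ, ‖(t : ℂ) + y * Complex.I‖ = Real.sqrt (t ^ 2 + y ^ 2) := fun t =>
        Complex.norm_add_mul_I t y
      have e2 := e1 1
      rw [Complex.ofReal_one] at e2
      rw [e1, e2]
      refine Real.sqrt_le_sqrt ?_
      have h6 : s ^ 2 ≤ 1 ^ 2 := sq_le_sq' hs.1 hs.2
      linarith
  · rcases hp with hp | hp
    · have h0 : n = (p + 1) + (p + 1) := by omega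
      subst h0
      obtain ⟨b, hb1, hb2, hb3⟩ := Helper27.CB.rep_even x h1 h2 h3
      intro s hs y
      have h4 : zeroPoly x = Helper27.CB.QQ 0 b := hb3
      rw [h4] at hb ⊢
      exact Helper27.CB.main (Nat.zero_le 1) hb1 hb2 hb hs y
    · have h0 : n = (p + 1) + (1 + (p + 1)) := by omega
      subst h0
      obtain ⟨b, hb1, hb2, hb3⟩ := Helper27.CB.rep_odd x h1 h2 h3
      intro s hs y
      have h4 : zeroPoly x = Helper27.CB.QQ 1 b := hb3
      rw [h4] at hb ⊢
      exact Helper27.CB.main le_rfl hb1 hb2 hb hs y

end Pool.Agent.Results.MP_1c7d4c_an.ConditionB
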